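import Pool.Agent.H586.AF.A

/-! Task AF-N (helper790): the mixed trace of two heat kernels. -/

set_option autoImplicit false

open MeasureTheory Matrix Finset Filter Topology
open Pool.Agent.H586.AF

namespace Pool.Agent.H790.AF

/-! ### Periodic sums -/

/-- the sum over a window -/
noncomputable def W (f : ℤ → ℝ) (a : ℤ) (P : ℕ) : ℝ := ∑ n ∈ Finset.range P, f (a + n)

theorem W_Ico (f : ℤ → ℝ) (a : ℤ) (P : ℕ) : ∑ z ∈ Finset.Ico a (a + P), f z = W f a P := by
  unfold W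
  induction P with
  | zero => simp
  | succ P ih =>
    rw [Finset.sum_range_succ, ← ih]
    have h : Finset.Ico a (a + ((P + 1 : ℕ) : ℤ)) = insert (a + (P : ℤ)) (Finset.Ico a (a + P)) := by
      ext z
      simp only [Finset.mem_Ico, Finset.mem_insert]
      push_cast
      omega
    rw [h, Finset.sum_insert (by simp), add_comm]

theorem W_succ (f : ℤ → ℝ) (P : ℕ) (hf : ∀ z, f (z + P) = f z) (a : ℤ) :
    W f (a + 1) P = W f a P := by
  unfold W
  have h1 := Finset.sum_range_succ (fun n : ℕ => f (a + n)) P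
  have h2 := Finset.sum_range_succ' (fun n : ℕ => f (a + n)) P
  rw [h1] at h2
  have h3 : ∀ n : ℕ, f (a + ((n + 1 : ℕ) : ℤ)) = f (a + 1 + n) := by
    intro n
    congr 1
    push_cast
    ring
  simp only [h3] at h2
  have h4 : f (a + ((0 : ℕ) : ℤ)) = f (a + P) := by
    rw [Nat.cast_zero, add_zero, hf]
  rw [h4] at h2
  linarith

theorem W_nat (f : ℤ → ℝ) (P : ℕ) (hf : ∀ z, f (z + P) = f z) (a : ℤ) (k : ℕ) :
    W f (a + k) P = W f a P := by
  induction k with
  | zero => simp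
  | succ k ih =>
    rw [← ih, ← W_succ f P hf (a + k)]
    congr 1
    push_cast
    ring

theorem W_any (f : ℤ → ℝ) (P : ℕ) (hf : ∀ z, f (z + P) = f z) (a b : ℤ) :
    W f a P = W f b P := by
  rcases le_total a b with h | h
  · obtain ⟨k, hk⟩ := Int.eq_ofNat_of_zero_le (sub_nonneg.2 h)
    have : b = a + k := by omega
    rw [this, W_nat f P hf]
  · obtain ⟨k, hk⟩ := Int.eq_ofNat_of_zero_le (sub_nonneg.2 h)
    have : a = b + k := by omega
    rw [this, W_nat f P hf]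

/-! ### The heat kernel of the circle -/

theorem rr_neg (L : ℕ) (t : ℝ) (z : ℤ) : rr L t (-z) = rr L t z := by
  unfold rr
  congr 1
  refine Finset.sum_congr rfl fun n _ => ?_
  rw [Int.cast_neg, mul_neg, Real.cos_neg]

theorem rr_per {L : ℕ} (hL : 2 ≤ L) (t : ℝ) (z : ℤ) : rr L t (z + (2 * L : ℕ)) = rr L t z := by
  unfold rr
  congr 1
  refine Finset.sum_congr rfl fun n _ => ?_
  congr 1
  have hL0 : (L : ℝ) ≠ 0 := by
    have : (0 : ℝ) < L := by exact_mod_cast (by omega : 0 < L)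
    exact this.ne'
  have : Real.pi * n / L * ((z + (2 * L : ℕ) : ℤ) : ℝ) = Real.pi * n / L * z + (n : ℝ) * (2 * Real.pi) := by
    push_cast
    field_simp
  rw [this, Real.cos_add_nat_mul_two_pi]

/-- the smoothed kernel -/
noncomputable def Sr (L : ℕ) (s : ℝ) (z : ℤ) : ℝ := rr L s (z + 1) + 2 * rr L s z + rr L s (z - 1)

theorem Sr_neg (L : ℕ) (t : ℝ) (z : ℤ) : Sr L t (-z) = Sr L t z := by
  unfold Sr
  have h1 : (-z + 1 : ℤ) = -(z - 1) := by ring
  have h2 : (-z - 1 : ℤ) = -(z + 1) := by ring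
  rw [h1, h2, rr_neg, rr_neg, rr_neg]
  ring

theorem Sr_per {L : ℕ} (hL : 2 ≤ L) (t : ℝ) (z : ℤ) : Sr L t (z + (2 * L : ℕ)) = Sr L t z := by
  unfold Sr
  have h1 : (z + (2 * L : ℕ) + 1 : ℤ) = (z + 1) + (2 * L : ℕ) := by ring
  have h2 : (z + (2 * L : ℕ) - 1 : ℤ) = (z - 1) + (2 * L : ℕ) := by ring
  rw [h1, h2, rr_per hL, rr_per hL, rr_per hL]

/-! ### The matrix -/

theorem nm_sum {L : ℕ} (hL : 2 ≤ L) (g : ℤ → ℝ) (h1 : g (-1) = 0) (h2 : g ((L : ℤ) - 1) = 0)
    (j : Fin L) : ∑ i : Fin (L - 1), nm L (L - 1) j i * g (i : ℕ) = g (j : ℕ) + g ((j : ℕ) - 1) := by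
  have e0 := Fin.sum_univ_eq_sum_range (fun i : ℕ =>
    ((if i = (j : ℕ) then (1 : ℝ) else 0) + (if i + 1 = (j : ℕ) then 1 else 0)) * g i) (L - 1)
  have e1 : ∑ i : Fin (L - 1), nm L (L - 1) j i * g (i : ℕ) = ∑ i ∈ Finset.range (L - 1),
      ((if i = (j : ℕ) then (1 : ℝ) else 0) + (if i + 1 = (j : ℕ) then 1 else 0)) * g i := e0
  rw [e1]
  simp only [add_mul, ite_mul, one_mul, zero_mul, Finset.sum_add_distrib]
  congr 1
  · rw [Finset.sum_ite_eq' (Finset.range (L - 1)) (j : ℕ) (fun i : ℕ => g i)]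
    by_cases hj : (j : ℕ) ∈ Finset.range (L - 1)
    · rw [if_pos hj]
    · rw [if_neg hj]
      rw [Finset.mem_range] at hj
      have h3 := j.2
      have h4 : ((j : ℕ) : ℤ) = (L : ℤ) - 1 := by omega
      rw [h4, h2]
  · rcases Nat.eq_zero_or_pos (j : ℕ) with hj | hj
    · rw [Finset.sum_eq_zero (fun i _ => if_neg (by omega)), hj]
      simp only [Nat.cast_zero, zero_sub]
      exact h1.symm
    · obtain ⟨k, hk⟩ : ∃ k : ℕ, (j : ℕ) = k + 1 := ⟨(j : ℕ) - 1, by omega⟩
      have h3 := j.2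
      rw [hk]
      simp only [Nat.add_right_cancel_iff]
      rw [Finset.sum_ite_eq' (Finset.range (L - 1)) k (fun i : ℕ => g i),
        if_pos (Finset.mem_range.2 (by omega))]
      congr 1
      push_cast
      ring

/-- the extension of the Dirichlet kernel -/
noncomputable def qq (L : ℕ) (s : ℝ) (x y : ℤ) : ℝ := rr L s (x - y) - rr L s (x + y + 2)

theorem qq1 (L : ℕ) (s : ℝ) (y : ℤ) : qq L s (-1) y = 0 := by
  unfold qq
  have h : (-1 - y : ℤ) = -(-1 + y + 2) := by ring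
  rw [h, rr_neg, sub_self]

theorem qq2 {L : ℕ} (hL : 2 ≤ L) (s : ℝ) (y : ℤ) : qq L s ((L : ℤ) - 1) y = 0 := by
  unfold qq
  have h : ((L : ℤ) - 1 - y : ℤ) = -((L : ℤ) - 1 + y + 2) + (2 * L : ℕ) := by
    push_cast
    ring
  rw [h, rr_per hL, rr_neg, sub_self]

theorem qq3 (L : ℕ) (s : ℝ) (x : ℤ) : qq L s x (-1) = 0 := by
  unfold qq
  have h : (x - -1 : ℤ) = x + -1 + 2 := by ring
  rw [h, sub_self]

theorem qq4 {L : ℕ} (hL : 2 ≤ L) (s : ℝ) (x : ℤ) : qq L s x ((L : ℤ) - 1) = 0 := by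
  unfold qq
  have h : (x + ((L : ℤ) - 1) + 2 : ℤ) = (x - ((L : ℤ) - 1)) + (2 * L : ℕ) := by
    push_cast
    ring
  rw [h, rr_per hL, sub_self]

theorem npn {L : ℕ} (hL : 2 ≤ L) (s : ℝ)
    (hR : ∀ i j : Fin (L - 1), hk (lDD L) s i j = rr L s ((i : ℤ) - j) - rr L s ((i : ℤ) + j + 2))
    (a b : Fin L) :
    (nm L (L - 1) * (hk (lDD L) s * (nm L (L - 1))ᵀ)) a b
      = Sr L s ((a : ℕ) - (b : ℕ)) - Sr L s ((a : ℕ) + (b : ℕ) + 1) := by
  have e1 : ∀ i : Fin (L - 1), (hk (lDD L) s * (nm L (L - 1))ᵀ) i b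
      = qq L s (i : ℕ) (b : ℕ) + qq L s (i : ℕ) ((b : ℕ) - 1) := by
    intro i
    rw [Matrix.mul_apply, ← nm_sum hL (fun y => qq L s (i : ℕ) y) (qq3 L s _) (qq4 hL s _) b]
    refine Finset.sum_congr rfl fun k _ => ?_
    rw [Matrix.transpose_apply, hR i k, mul_comm]
    rfl
  rw [Matrix.mul_apply, Finset.sum_congr rfl fun i _ => by rw [e1 i],
    nm_sum hL (fun x => qq L s x (b : ℕ) + qq L s x ((b : ℕ) - 1)) (by rw [qq1, qq1, add_zero])
      (by rw [qq2 hL, qq2 hL, add_zero]) a]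
  simp only [qq, Sr]
  have f1 : (((a : ℕ) : ℤ) - (((b : ℕ) : ℤ) - 1)) = ((a : ℕ) : ℤ) - ((b : ℕ) : ℤ) + 1 := by ring
  have f2 : (((a : ℕ) : ℤ) + (((b : ℕ) : ℤ) - 1) + 2) = ((a : ℕ) : ℤ) + ((b : ℕ) : ℤ) + 1 := by ring
  have f3 : (((a : ℕ) : ℤ) - 1 - ((b : ℕ) : ℤ)) = ((a : ℕ) : ℤ) - ((b : ℕ) : ℤ) - 1 := by ring
  have f4 : (((a : ℕ) : ℤ) - 1 + ((b : ℕ) : ℤ) + 2) = ((a : ℕ) : ℤ) + ((b : ℕ) : ℤ) + 1 := by ring
  have f5 : (((a : ℕ) : ℤ) - 1 - (((b : ℕ) : ℤ) - 1)) = ((a : ℕ) : ℤ) - ((b : ℕ) : ℤ) := by ring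
  have f6 : (((a : ℕ) : ℤ) - 1 + (((b : ℕ) : ℤ) - 1) + 2) = ((a : ℕ) : ℤ) + ((b : ℕ) : ℤ) + 1 - 1 := by
    ring
  have f7 : (((a : ℕ) : ℤ) + ((b : ℕ) : ℤ) + 2) = ((a : ℕ) : ℤ) + ((b : ℕ) : ℤ) + 1 + 1 := by ring
  rw [f1, f2, f3, f4, f5, f6, f7]
  ring

theorem nn_eq {L : ℕ} (hL : 2 ≤ L) (hR : S_R) (t s : ℝ) :
    nn L t s = ∑ j ∈ Finset.range L, ∑ k ∈ Finset.range L,
      (rr L t ((j : ℤ) - k) + rr L t ((j : ℤ) + k + 1)) *
        (Sr L s ((j : ℤ) - k) - Sr L s ((j : ℤ) + k + 1)) := by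
  unfold nn
  rw [Matrix.mul_assoc, Matrix.mul_assoc, Matrix.trace]
  have e : ∀ j : Fin L, (hk (lNN L) t * (nm L (L - 1) * (hk (lDD L) s * (nm L (L - 1))ᵀ))).diag j
      = ∑ k ∈ Finset.range L, (rr L t (((j : ℕ) : ℤ) - k) + rr L t (((j : ℕ) : ℤ) + k + 1)) *
        (Sr L s (((j : ℕ) : ℤ) - k) - Sr L s (((j : ℕ) : ℤ) + k + 1)) := by
    intro j
    rw [Matrix.diag_apply, Matrix.mul_apply, ← Fin.sum_univ_eq_sum_range (fun k : ℕ =>
      (rr L t (((j : ℕ) : ℤ) - k) + rr L t (((j : ℕ) : ℤ) + k + 1)) *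
        (Sr L s (((j : ℕ) : ℤ) - k) - Sr L s (((j : ℕ) : ℤ) + k + 1))) L]
    refine Finset.sum_congr rfl fun k _ => ?_
    rw [npn hL s (hR L hL s).1 k j, (hR L hL t).2 j k]
    have g1 : ((k : ℕ) : ℤ) - ((j : ℕ) : ℤ) = -(((j : ℕ) : ℤ) - ((k : ℕ) : ℤ)) := by ring
    have g2 : ((k : ℕ) : ℤ) + ((j : ℕ) : ℤ) + 1 = ((j : ℕ) : ℤ) + ((k : ℕ) : ℤ) + 1 := by ring
    rw [g1, g2, Sr_neg]
  rw [Finset.sum_congr rfl fun j _ => e j]
  exact Fin.sum_univ_eq_sum_range (fun j : ℕ => ∑ k ∈ Finset.range L,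
    (rr L t ((j : ℤ) - k) + rr L t ((j : ℤ) + k + 1)) *
        (Sr L s ((j : ℤ) - k) - Sr L s ((j : ℤ) + k + 1))) L

/-! ### Double sums -/

theorem inj_le {α β : Type} [DecidableEq β] (s : Finset α) (t : Finset β) (φ : α → β)
    (hinj : Set.InjOn φ s) (hm : ∀ x ∈ s, φ x ∈ t) (G : β → ℝ) (hG : ∀ z, 0 ≤ G z) :
    ∑ x ∈ s, G (φ x) ≤ ∑ z ∈ t, G z := by
  rw [← Finset.sum_image (f := G) hinj]
  refine Finset.sum_le_sum_of_subset_of_nonneg ?_ fun z _ _ => hG z
  intro z hz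
  obtain ⟨x, hx, rfl⟩ := Finset.mem_image.1 hz
  exact hm x hx

theorem dbl (L : ℕ) (F K : ℤ → ℝ) (hF : ∀ z, 0 ≤ F z) (hK : ∀ z, 0 ≤ K z) :
    ∑ j ∈ Finset.range L, ∑ k ∈ Finset.range L, F ((j : ℤ) - k) * K ((j : ℤ) + k + 1) ≤
      W F (-L) (2 * L) * W K 0 (2 * L) := by
  rw [← W_Ico, ← W_Ico, Finset.sum_mul_sum, ← Finset.sum_product', ← Finset.sum_product']
  refine inj_le (Finset.range L ×ˢ Finset.range L)
    (Finset.Ico (-(L : ℤ)) (-(L : ℤ) + (2 * L : ℕ)) ×ˢ Finset.Ico (0 : ℤ) (0 + (2 * L : ℕ)))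
    (fun x => ((x.1 : ℤ) - x.2, (x.1 : ℤ) + x.2 + 1)) ?_ ?_ (fun p => F p.1 * K p.2)
    fun p => mul_nonneg (hF _) (hK _)
  · rintro ⟨j, k⟩ _ ⟨j', k'⟩ _ h
    have h1 : (j : ℤ) - k = (j' : ℤ) - k' := congrArg Prod.fst h
    have h2 : (j : ℤ) + k + 1 = (j' : ℤ) + k' + 1 := congrArg Prod.snd h
    have h3 : j = j' := by omega
    have h4 : k = k' := by omega
    rw [h3, h4]
  · rintro ⟨j, k⟩ hx
    rw [Finset.mem_product, Finset.mem_range, Finset.mem_range] at hx
    have h1 : j < L := hx.1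
    have h2 : k < L := hx.2
    rw [Finset.mem_product, Finset.mem_Ico, Finset.mem_Ico]
    refine ⟨⟨?_, ?_⟩, ?_, ?_⟩
    · change -(L : ℤ) ≤ (j : ℤ) - k
      omega
    · change (j : ℤ) - k < -(L : ℤ) + (2 * L : ℕ)
      push_cast
      omega
    · change (0 : ℤ) ≤ (j : ℤ) + k + 1
      omega
    · change (j : ℤ) + k + 1 < 0 + (2 * L : ℕ)
      push_cast
      omega

/-- the diagonal sum -/
theorem diag_sum {L : ℕ} (G : ℤ → ℝ) (hp : ∀ z, G (z + (2 * L : ℕ)) = G z)
    (hn : ∀ z, G (-z) = G z) :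
    ∑ j ∈ Finset.range L, ∑ k ∈ Finset.range L, G ((j : ℤ) - k) = L * W G 0 (2 * L) -
      ∑ j ∈ Finset.range L, ∑ k ∈ Finset.range L, G ((j : ℤ) + k + 1) := by
  rw [Finset.sum_comm, eq_sub_iff_add_eq, Finset.sum_comm (f := fun (j k : ℕ) => G ((j : ℤ) + k + 1)),
    ← Finset.sum_add_distrib]
  have h : ∀ k ∈ Finset.range L, ∑ j ∈ Finset.range L, G ((j : ℤ) - k) +
      ∑ j ∈ Finset.range L, G ((j : ℤ) + k + 1) = W G 0 (2 * L) := by
    intro k _
    rw [W_any G (2 * L) hp 0 (-k)]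
    unfold W
    rw [two_mul, Finset.sum_range_add]
    congr 1
    · refine Finset.sum_congr rfl fun j _ => ?_
      congr 1
      ring
    · rw [← Finset.sum_range_reflect]
      refine Finset.sum_congr rfl fun j hj => ?_
      rw [Finset.mem_range] at hj
      have e : ((L - 1 - j : ℕ) : ℤ) = (L : ℤ) - 1 - j := by omega
      have e2 : -(k : ℤ) + ((L + j : ℕ) : ℤ) =
          -(((L - 1 - j : ℕ) : ℤ) + k + 1) + (2 * L : ℕ) := by
        rw [e]
        push_cast
        ring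
      rw [e2, hp, hn]
  rw [Finset.sum_congr rfl h, Finset.sum_const, Finset.card_range, nsmul_eq_mul]

theorem cnt_le {L : ℕ} (R S : ℤ → ℝ) (hS : ∀ z, 0 ≤ S z) (hR : ∀ z, 0 ≤ R z)
    (h1 : ∀ y : ℕ, y ≤ L → (y : ℝ) * R y ≤ 1)
    (h2 : ∀ y : ℕ, L ≤ y → y ≤ 2 * L → ((2 * L - y : ℕ) : ℝ) * R y ≤ 1) :
    ∑ j ∈ Finset.range L, ∑ k ∈ Finset.range L, R ((j : ℤ) + k + 1) * S ((j : ℤ) + k + 1) ≤
      W S 0 (2 * L) := by
  rw [← Finset.sum_product']
  have hmap : ∀ x ∈ Finset.range L ×ˢ Finset.range L, x.1 + x.2 + 1 ∈ Finset.range (2 * L) := by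
    intro x hx
    rw [Finset.mem_product, Finset.mem_range, Finset.mem_range] at hx
    rw [Finset.mem_range]
    omega
  rw [← Finset.sum_fiberwise_of_maps_to hmap]
  unfold W
  refine Finset.sum_le_sum fun y hy => ?_
  rw [Finset.mem_range] at hy
  have e : ∀ x ∈ (Finset.range L ×ˢ Finset.range L).filter (fun x => x.1 + x.2 + 1 = y),
      R ((x.1 : ℤ) + x.2 + 1) * S ((x.1 : ℤ) + x.2 + 1) = R y * S y := by
    intro x hx
    have h3 : x.1 + x.2 + 1 = y := (Finset.mem_filter.1 hx).2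
    have h4 : (x.1 : ℤ) + x.2 + 1 = y := by rw [← h3]; push_cast; ring
    rw [h4]
  rw [Finset.sum_congr rfl e, Finset.sum_const, nsmul_eq_mul, ← mul_assoc, zero_add]
  have key : (((Finset.range L ×ˢ Finset.range L).filter (fun x => x.1 + x.2 + 1 = y)).card : ℝ)
      * R y ≤ 1 := by
    rcases le_total y L with h | h
    · refine le_trans (mul_le_mul_of_nonneg_right ?_ (hR _)) (h1 y h)
      have hc : ((Finset.range L ×ˢ Finset.range L).filter (fun x => x.1 + x.2 + 1 = y)).card ≤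
          (Finset.range y).card := by
        refine Finset.card_le_card_of_injOn (fun x => x.1) ?_ ?_
        · intro x hx
          have h3 := (Finset.mem_filter.1 (Finset.mem_coe.1 hx)).2
          exact Finset.mem_coe.2 (Finset.mem_range.2 (by change x.1 < y; omega))
        · intro x hx x' hx' hxx
          have h3 := (Finset.mem_filter.1 (Finset.mem_coe.1 hx)).2
          have h4 := (Finset.mem_filter.1 (Finset.mem_coe.1 hx')).2
          have h5 : x.1 = x'.1 := hxx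
          exact Prod.ext h5 (by omega)
      rw [Finset.card_range] at hc
      exact_mod_cast hc
    · refine le_trans (mul_le_mul_of_nonneg_right ?_ (hR _)) (h2 y h (by omega))
      have hc : ((Finset.range L ×ˢ Finset.range L).filter (fun x => x.1 + x.2 + 1 = y)).card ≤
          (Finset.range (2 * L - y)).card := by
        refine Finset.card_le_card_of_injOn (fun x => L - 1 - x.1) ?_ ?_
        · intro x hx
          have h3 := (Finset.mem_filter.1 (Finset.mem_coe.1 hx)).2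
          have h6 := (Finset.mem_filter.1 (Finset.mem_coe.1 hx)).1
          rw [Finset.mem_product, Finset.mem_range, Finset.mem_range] at h6
          exact Finset.mem_coe.2 (Finset.mem_range.2 (by
            change L - 1 - x.1 < 2 * L - y
            omega))
        · intro x hx x' hx' hxx
          have h3 := (Finset.mem_filter.1 (Finset.mem_coe.1 hx)).2
          have h4 := (Finset.mem_filter.1 (Finset.mem_coe.1 hx')).2
          have h6 := (Finset.mem_filter.1 (Finset.mem_coe.1 hx)).1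
          have h7 := (Finset.mem_filter.1 (Finset.mem_coe.1 hx')).1
          rw [Finset.mem_product, Finset.mem_range, Finset.mem_range] at h6 h7
          have h5 : L - 1 - x.1 = L - 1 - x'.1 := hxx
          exact Prod.ext (by omega) (by omega)
      rw [Finset.card_range] at hc
      exact_mod_cast hc
  have := mul_le_mul_of_nonneg_right key (hS y)
  rw [one_mul] at this
  exact this

/-! ### Parseval -/

theorem orth {L : ℕ} (hL : 2 ≤ L) (a : ℤ) :
    ∑ z ∈ Finset.range (2 * L), Real.cos (Real.pi * a / L * z) =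
      if ((2 * L : ℕ) : ℤ) ∣ a then (2 * L : ℝ) else 0 := by
  have hL0 : (0 : ℝ) < L := by exact_mod_cast (by omega : 0 < L)
  by_cases h : ((2 * L : ℕ) : ℤ) ∣ a
  · rw [if_pos h]
    obtain ⟨c, rfl⟩ := h
    have e : ∀ z ∈ Finset.range (2 * L),
        Real.cos (Real.pi * (((2 * L : ℕ) : ℤ) * c : ℤ) / L * z) = 1 := by
      intro z _
      have e1 : Real.pi * (((2 * L : ℕ) : ℤ) * c : ℤ) / L * z = ((c * z : ℤ) : ℝ) * (2 * Real.pi) := by
        push_cast
        field_simp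
      rw [e1]
      exact Real.cos_int_mul_two_pi _
    rw [Finset.sum_congr rfl e, Finset.sum_const, Finset.card_range, nsmul_eq_mul, mul_one]
    push_cast
    ring
  · rw [if_neg h]
    set x : ℝ := Real.pi * a / L with hx
    have hs : Real.sin (x / 2) ≠ 0 := by
      intro h0
      obtain ⟨n, hn⟩ := Real.sin_eq_zero_iff.1 h0
      apply h
      refine ⟨n, ?_⟩
      have h1 : (n : ℝ) * Real.pi = Real.pi * a / L / 2 := by rw [hn, hx]
      have h2 : (a : ℝ) = 2 * L * n := by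
        field_simp at h1
        linarith
      have h5 : (a : ℝ) = ((((2 * L : ℕ) : ℤ) * n : ℤ) : ℝ) := by
        rw [h2]
        push_cast
        ring
      exact_mod_cast h5
    have htel : ∀ z : ℕ, Real.cos (x * z) * (2 * Real.sin (x / 2)) =
        Real.sin (x * ((z + 1 : ℕ) : ℝ) - x / 2) - Real.sin (x * (z : ℝ) - x / 2) := by
      intro z
      have e1 : x * ((z + 1 : ℕ) : ℝ) - x / 2 = x * z + x / 2 := by
        push_cast
        ring
      rw [e1, Real.sin_add, Real.sin_sub]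
      ring
    have hsum : (∑ z ∈ Finset.range (2 * L), Real.cos (x * z)) * (2 * Real.sin (x / 2)) = 0 := by
      rw [Finset.sum_mul, Finset.sum_congr rfl fun z _ => htel z,
        Finset.sum_range_sub (fun z : ℕ => Real.sin (x * (z : ℝ) - x / 2))]
      have e1 : x * ((2 * L : ℕ) : ℝ) - x / 2 = -(x / 2) + (a : ℝ) * (2 * Real.pi) := by
        rw [hx]
        push_cast
        field_simp
        ring
      rw [e1, Real.sin_add_int_mul_two_pi]
      simp
    rcases mul_eq_zero.1 hsum with h1 | h1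
    · exact h1
    · exact absurd ((mul_eq_zero.1 h1).resolve_left two_ne_zero) hs

/-- the weights -/
noncomputable def sg (L : ℕ) (s : ℝ) (n : ℕ) : ℝ :=
  Real.exp (-s * ek (Real.pi * n / L)) * (2 + 2 * Real.cos (Real.pi * n / L))

theorem Sr_eq (L : ℕ) (s : ℝ) (z : ℤ) : Sr L s z = (1 / (2 * (L : ℝ))) *
    ∑ n ∈ Finset.range (2 * L), sg L s n * Real.cos (Real.pi * n / L * z) := by
  unfold Sr rr
  rw [← mul_assoc 2, mul_comm 2 (1 / (2 * (L : ℝ))), mul_assoc, ← mul_add, ← mul_add,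
    Finset.mul_sum, ← Finset.sum_add_distrib, ← Finset.sum_add_distrib]
  congr 1
  refine Finset.sum_congr rfl fun n _ => ?_
  unfold sg
  have e1 : Real.pi * n / L * ((z + 1 : ℤ) : ℝ) = Real.pi * n / L * z + Real.pi * n / L := by
    push_cast
    ring
  have e2 : Real.pi * n / L * ((z - 1 : ℤ) : ℝ) = Real.pi * n / L * z - Real.pi * n / L := by
    push_cast
    ring
  rw [e1, e2, Real.cos_add, Real.cos_sub]
  ring

theorem cross {L : ℕ} (hL : 2 ≤ L) (n m : ℕ) :
    ∑ z ∈ Finset.range (2 * L), Real.cos (Real.pi * n / L * z) * Real.cos (Real.pi * m / L * z) =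
      1 / 2 * ((if ((2 * L : ℕ) : ℤ) ∣ (n : ℤ) - m then (2 * L : ℝ) else 0) +
        if ((2 * L : ℕ) : ℤ) ∣ (n : ℤ) + m then (2 * L : ℝ) else 0) := by
  rw [← orth hL, ← orth hL, ← Finset.sum_add_distrib, Finset.mul_sum]
  refine Finset.sum_congr rfl fun z _ => ?_
  have e1 : Real.pi * (((n : ℤ) - m : ℤ) : ℝ) / L * z =
      Real.pi * n / L * z - Real.pi * m / L * z := by
    push_cast
    ring
  have e2 : Real.pi * (((n : ℤ) + m : ℤ) : ℝ) / L * z =
      Real.pi * n / L * z + Real.pi * m / L * z := by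
    push_cast
    ring
  rw [e1, e2, Real.cos_add, Real.cos_sub]
  ring

theorem sg_refl {L : ℕ} (hL : 2 ≤ L) (s : ℝ) (n m : ℕ) (h : n + m = 2 * L) :
    sg L s m = sg L s n := by
  have hL0 : (L : ℝ) ≠ 0 := by
    have : (0 : ℝ) < L := by exact_mod_cast (by omega : 0 < L)
    exact this.ne'
  have hm : (m : ℝ) = 2 * L - n := by
    have : ((n + m : ℕ) : ℝ) = ((2 * L : ℕ) : ℝ) := by rw [h]
    push_cast at this
    linarith
  have e : Real.cos (Real.pi * m / L) = Real.cos (Real.pi * n / L) := by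
    have e1 : Real.pi * m / L = 2 * Real.pi - Real.pi * n / L := by
      rw [hm]
      field_simp
    rw [e1, Real.cos_two_pi_sub]
  unfold sg ek
  rw [e]

theorem inv {L : ℕ} (hL : 2 ≤ L) (s : ℝ) (n : ℕ) (hn : n < 2 * L) :
    ∑ z ∈ Finset.range (2 * L), Real.cos (Real.pi * n / L * z) * Sr L s z = sg L s n := by
  have hL0 : (L : ℝ) ≠ 0 := by
    have : (0 : ℝ) < L := by exact_mod_cast (by omega : 0 < L)
    exact this.ne'
  have e : ∀ z ∈ Finset.range (2 * L), Real.cos (Real.pi * n / L * z) * Sr L s z =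
      (1 / (2 * (L : ℝ))) * ∑ m ∈ Finset.range (2 * L), sg L s m *
        (Real.cos (Real.pi * n / L * z) * Real.cos (Real.pi * m / L * z)) := by
    intro z _
    rw [Sr_eq, mul_left_comm, Finset.mul_sum]
    congr 1
    refine Finset.sum_congr rfl fun m _ => ?_
    push_cast
    ring
  rw [Finset.sum_congr rfl e, ← Finset.mul_sum, Finset.sum_comm]
  have e2 : ∀ m ∈ Finset.range (2 * L), ∑ z ∈ Finset.range (2 * L), sg L s m *
        (Real.cos (Real.pi * n / L * z) * Real.cos (Real.pi * m / L * z)) =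
      L * (if n = m then sg L s m else 0) +
        L * (if m = (if n = 0 then 0 else 2 * L - n) then sg L s m else 0) := by
    intro m hm
    rw [Finset.mem_range] at hm
    rw [← Finset.mul_sum, cross hL]
    have d1 : (((2 * L : ℕ) : ℤ) ∣ (n : ℤ) - m) ↔ n = m := by
      constructor
      · rintro ⟨c, hc⟩
        have h1 : (n : ℤ) - m < (2 * L : ℕ) := by omega
        have h2 : -((2 * L : ℕ) : ℤ) < (n : ℤ) - m := by omega
        have hpos : (0 : ℤ) < (2 * L : ℕ) := by omega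
        rw [hc] at h1 h2
        have h3 : c < 1 := by nlinarith
        have h4 : -1 < c := by nlinarith
        have h5 : c = 0 := by omega
        rw [h5, mul_zero] at hc
        omega
      · rintro rfl
        simp
    have d2 : (((2 * L : ℕ) : ℤ) ∣ (n : ℤ) + m) ↔ m = (if n = 0 then 0 else 2 * L - n) := by
      constructor
      · rintro ⟨c, hc⟩
        have hpos : (0 : ℤ) < (2 * L : ℕ) := by omega
        have h1 : (n : ℤ) + m < 2 * (2 * L : ℕ) := by omega
        have h2 : 0 ≤ (n : ℤ) + m := by omega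
        rw [hc] at h1 h2
        have h3 : c < 2 := by nlinarith
        have h4 : 0 ≤ c := by nlinarith
        have h5 : c = 0 ∨ c = 1 := by omega
        rcases h5 with h5 | h5
        · rw [h5, mul_zero] at hc
          rw [if_pos (by omega)]
          omega
        · rw [h5, mul_one] at hc
          have h6 : n ≠ 0 := by omega
          rw [if_neg h6]
          omega
      · intro h
        by_cases h0 : n = 0
        · rw [if_pos h0] at h
          rw [h0, h]
          simp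
        · rw [if_neg h0] at h
          refine ⟨1, ?_⟩
          omega
    rw [if_congr d1 rfl rfl, if_congr d2 rfl rfl]
    by_cases c1 : n = m
    · rw [if_pos c1, if_pos c1]
      by_cases c2 : m = (if n = 0 then 0 else 2 * L - n)
      · rw [if_pos c2, if_pos c2]
        ring
      · rw [if_neg c2, if_neg c2]
        ring
    · rw [if_neg c1, if_neg c1]
      by_cases c2 : m = (if n = 0 then 0 else 2 * L - n)
      · rw [if_pos c2, if_pos c2]
        ring
      · rw [if_neg c2, if_neg c2]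
        ring
  rw [Finset.sum_congr rfl e2, Finset.sum_add_distrib, ← Finset.mul_sum, ← Finset.mul_sum,
    Finset.sum_ite_eq (Finset.range (2 * L)) n (fun m => sg L s m),
    Finset.sum_ite_eq' (Finset.range (2 * L)) _ (fun m => sg L s m),
    if_pos (Finset.mem_range.2 hn)]
  have h3 : (if n = 0 then 0 else 2 * L - n) ∈ Finset.range (2 * L) := by
    rw [Finset.mem_range]
    by_cases h0 : n = 0
    · rw [if_pos h0]
      omega
    · rw [if_neg h0]
      omega
  rw [if_pos h3]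
  have h4 : sg L s (if n = 0 then 0 else 2 * L - n) = sg L s n := by
    by_cases h0 : n = 0
    · rw [if_pos h0, h0]
    · rw [if_neg h0]
      exact sg_refl hL s n _ (by omega)
  rw [h4]
  field_simp
  ring

theorem parseval {L : ℕ} (hL : 2 ≤ L) (t s : ℝ) :
    (L : ℝ) * W (fun z => rr L t z * Sr L s z) 0 (2 * L) =
      1 / 2 * ∑ n ∈ Finset.range (2 * L), sg L (t + s) n := by
  have hL0 : (L : ℝ) ≠ 0 := by
    have : (0 : ℝ) < L := by exact_mod_cast (by omega : 0 < L)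
    exact this.ne'
  have e : W (fun z => rr L t z * Sr L s z) 0 (2 * L) = (1 / (2 * (L : ℝ))) *
      ∑ n ∈ Finset.range (2 * L), sg L (t + s) n := by
    unfold W
    have e1 : ∀ z ∈ Finset.range (2 * L), rr L t (0 + z) * Sr L s (0 + z) = (1 / (2 * (L : ℝ))) *
        ∑ n ∈ Finset.range (2 * L), Real.exp (-t * ek (Real.pi * n / L)) *
          (Real.cos (Real.pi * n / L * z) * Sr L s z) := by
      intro z _
      rw [zero_add, rr, mul_assoc, Finset.sum_mul]
      congr 1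
      refine Finset.sum_congr rfl fun n _ => ?_
      push_cast
      ring
    rw [Finset.sum_congr rfl e1, ← Finset.mul_sum, Finset.sum_comm]
    congr 1
    refine Finset.sum_congr rfl fun n hn => ?_
    rw [← Finset.mul_sum, inv hL s n (Finset.mem_range.1 hn)]
    unfold sg
    rw [← mul_assoc, ← Real.exp_add]
    congr 2
    ring
  rw [e]
  field_simp

/-! ### Sum and integral -/

/-- the integrand -/
noncomputable def gk (τ k : ℝ) : ℝ := (2 + 2 * Real.cos k) * Real.exp (-τ * ek k)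

theorem gk_anti {τ : ℝ} (hτ : 0 ≤ τ) : AntitoneOn (gk τ) (Set.Icc 0 Real.pi) := by
  intro x hx y hy hxy
  have hc : Real.cos y ≤ Real.cos x := Real.cos_le_cos_of_nonneg_of_le_pi hx.1 hy.2 hxy
  unfold gk ek
  refine mul_le_mul (by linarith) ?_ (Real.exp_pos _).le ?_
  · refine Real.exp_le_exp.2 ?_
    have := mul_le_mul_of_nonneg_left hc hτ
    linarith
  · have := Real.neg_one_le_cos x
    linarith

theorem gk_sum {L : ℕ} (hL : 2 ≤ L) {τ : ℝ} (hτ : 0 ≤ τ) :
    |1 / 2 * ∑ n ∈ Finset.range (2 * L), sg L τ n - L * gg τ| ≤ 2 := by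
  have hL0 : (0 : ℝ) < L := by exact_mod_cast (by omega : 0 < L)
  have hpi := Real.pi_pos
  set H : ℝ → ℝ := fun x => gk τ (Real.pi / L * x) with hH
  have hanti : AntitoneOn H (Set.Icc (0 : ℝ) (0 + (L : ℕ))) := by
    intro x hx y hy hxy
    have hc : 0 < Real.pi / L := div_pos hpi hL0
    have e1 : ∀ u : ℝ, u ∈ Set.Icc (0 : ℝ) (0 + (L : ℕ)) →
        Real.pi / L * u ∈ Set.Icc (0 : ℝ) Real.pi := by
      intro u hu
      refine ⟨mul_nonneg hc.le hu.1, ?_⟩
      have h2 := mul_le_mul_of_nonneg_left hu.2 hc.le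
      rw [zero_add, div_mul_cancel₀ _ hL0.ne'] at h2
      exact h2
    exact gk_anti hτ (e1 x hx) (e1 y hy) (mul_le_mul_of_nonneg_left hxy hc.le)
  have h1 := hanti.integral_le_sum
  have h2 := hanti.sum_le_integral
  have hI : ∫ x in (0 : ℝ)..(0 + (L : ℕ)), H x = L * gg τ := by
    have hc : Real.pi / L ≠ 0 := (div_pos hpi hL0).ne'
    rw [hH, intervalIntegral.integral_comp_mul_left (gk τ) hc, mul_zero, zero_add,
      div_mul_cancel₀ _ hL0.ne', smul_eq_mul, inv_div]
    unfold gg gk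
    ring
  rw [hI] at h1 h2
  simp only [zero_add] at h1 h2
  have e0 : ∀ n : ℕ, sg L τ n = H n := by
    intro n
    change _ = gk τ (Real.pi / L * n)
    unfold sg gk
    have : Real.pi * n / L = Real.pi / L * n := by ring
    rw [this]
    ring
  have e1 : ∑ n ∈ Finset.range (2 * L), sg L τ n =
      ∑ n ∈ Finset.range L, H n + ∑ n ∈ Finset.range L, H ((n + 1 : ℕ) : ℝ) := by
    rw [two_mul, Finset.sum_range_add]
    congr 1
    · exact Finset.sum_congr rfl fun n _ => e0 n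
    · rw [← Finset.sum_range_reflect]
      refine Finset.sum_congr rfl fun n hn => ?_
      rw [Finset.mem_range] at hn
      rw [← e0]
      exact sg_refl hL τ _ _ (by omega)
  have e2 : ∑ n ∈ Finset.range L, H n ≤ ∑ n ∈ Finset.range L, H ((n + 1 : ℕ) : ℝ) + 4 := by
    have a1 := Finset.sum_range_succ (fun n : ℕ => H n) L
    have a2 := Finset.sum_range_succ' (fun n : ℕ => H n) L
    rw [a1] at a2
    have a3 : H ((0 : ℕ) : ℝ) = 4 := by
      change gk τ (Real.pi / L * ((0 : ℕ) : ℝ)) = 4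
      unfold gk ek
      rw [Nat.cast_zero, mul_zero, Real.cos_zero]
      norm_num
    have a4 : H (L : ℝ) = 0 := by
      change gk τ (Real.pi / L * L) = 0
      unfold gk
      rw [div_mul_cancel₀ _ hL0.ne', Real.cos_pi]
      norm_num
    rw [a3, a4] at a2
    linarith
  rw [e1, abs_le]
  constructor <;> linarith

/-! ### The bound -/

theorem tn (hR : S_R) (hP : S_P) (hV : S_V) : S_N := by
  obtain ⟨C, hV⟩ := hV
  refine ⟨14, by norm_num, fun L hL t s ht hs => ?_⟩
  obtain ⟨hr0, hr1, _⟩ := hP L hL t ht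
  obtain ⟨hs0, hs1, _⟩ := hP L hL s hs
  have hr : ∀ z, 0 ≤ rr L t z := fun z => (hr0 z).1
  have hs' : ∀ z, 0 ≤ rr L s z := fun z => (hs0 z).1
  have hS : ∀ z, 0 ≤ Sr L s z := by
    intro z
    unfold Sr
    have h1 := hs' (z + 1)
    have h2 := hs' z
    have h3 := hs' (z - 1)
    linarith
  have hwin : (L : ℤ) = -(L : ℤ) + (2 * L : ℕ) := by
    push_cast
    ring
  have wr : ∀ a, W (rr L t) a (2 * L) = 1 := by
    intro a
    rw [W_any (rr L t) (2 * L) (rr_per hL t) a (-L), ← W_Ico, ← hwin]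
    exact hr1
  have ws0 : ∀ a, W (rr L s) a (2 * L) = 1 := by
    intro a
    rw [W_any (rr L s) (2 * L) (rr_per hL s) a (-L), ← W_Ico, ← hwin]
    exact hs1
  have ws : ∀ a, W (Sr L s) a (2 * L) = 4 := by
    intro a
    have h1 := ws0 (a + 1)
    have h2 := ws0 a
    have h3 := ws0 (a - 1)
    unfold W at h1 h2 h3 ⊢
    unfold Sr
    rw [Finset.sum_add_distrib, Finset.sum_add_distrib, ← Finset.mul_sum, h2]
    have e1 : ∀ n : ℕ, a + (n : ℤ) + 1 = a + 1 + n := fun n => by ring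
    have e2 : ∀ n : ℕ, a + (n : ℤ) - 1 = a - 1 + n := fun n => by ring
    simp only [e1, e2]
    rw [h1, h3]
    norm_num
  have hB := dbl L (rr L t) (Sr L s) hr hS
  rw [wr, ws] at hB
  have hC := dbl L (Sr L s) (rr L t) hS hr
  rw [wr, ws] at hC
  have hD := cnt_le (L := L) (rr L t) (Sr L s) hS hr (fun y hy => by
      have h := (hV L hL t ht (y : ℤ) (by rw [abs_of_nonneg (by omega)]; exact_mod_cast hy)).1
      rw [Int.cast_natCast, abs_of_nonneg (Nat.cast_nonneg y)] at h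
      exact h)
    (fun y hy hy2 => by
      have h := (hV L hL t ht ((y : ℤ) - (2 * L : ℕ)) (by
        rw [abs_of_nonpos (by omega)]
        omega)).1
      rw [← rr_per hL t ((y : ℤ) - (2 * L : ℕ)), sub_add_cancel] at h
      have e : |(((y : ℤ) - (2 * L : ℕ) : ℤ) : ℝ)| = ((2 * L - y : ℕ) : ℝ) := by
        rw [Nat.cast_sub hy2, abs_of_nonpos]
        · push_cast
          ring
        · have : ((y : ℤ) - (2 * L : ℕ) : ℤ) ≤ 0 := by omega
          exact_mod_cast this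
      rw [e] at h
      exact h)
  rw [ws] at hD
  have hA := diag_sum (L := L) (fun z => rr L t z * Sr L s z)
    (fun z => by rw [rr_per hL, Sr_per hL]) (fun z => by rw [rr_neg, Sr_neg])
  rw [parseval hL] at hA
  have hG := gk_sum hL (add_nonneg ht hs)
  have b0 : 0 ≤ ∑ j ∈ Finset.range L, ∑ k ∈ Finset.range L,
      rr L t ((j : ℤ) - k) * Sr L s ((j : ℤ) + k + 1) :=
    Finset.sum_nonneg fun _ _ => Finset.sum_nonneg fun _ _ => mul_nonneg (hr _) (hS _)
  have c0 : 0 ≤ ∑ j ∈ Finset.range L, ∑ k ∈ Finset.range L,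
      Sr L s ((j : ℤ) - k) * rr L t ((j : ℤ) + k + 1) :=
    Finset.sum_nonneg fun _ _ => Finset.sum_nonneg fun _ _ => mul_nonneg (hS _) (hr _)
  have d0 : 0 ≤ ∑ j ∈ Finset.range L, ∑ k ∈ Finset.range L,
      rr L t ((j : ℤ) + k + 1) * Sr L s ((j : ℤ) + k + 1) :=
    Finset.sum_nonneg fun _ _ => Finset.sum_nonneg fun _ _ => mul_nonneg (hr _) (hS _)
  have hsplit : nn L t s =
      (∑ j ∈ Finset.range L, ∑ k ∈ Finset.range L, rr L t ((j : ℤ) - k) * Sr L s ((j : ℤ) - k))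
      - (∑ j ∈ Finset.range L, ∑ k ∈ Finset.range L,
          rr L t ((j : ℤ) - k) * Sr L s ((j : ℤ) + k + 1))
      + (∑ j ∈ Finset.range L, ∑ k ∈ Finset.range L,
          Sr L s ((j : ℤ) - k) * rr L t ((j : ℤ) + k + 1))
      - ∑ j ∈ Finset.range L, ∑ k ∈ Finset.range L,
          rr L t ((j : ℤ) + k + 1) * Sr L s ((j : ℤ) + k + 1) := by
    rw [nn_eq hL hR]
    simp only [← Finset.sum_sub_distrib, ← Finset.sum_add_distrib]
    refine Finset.sum_congr rfl fun j _ => Finset.sum_congr rfl fun k _ => ?_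
    ring
  rw [hsplit, hA]
  rw [abs_le] at hG ⊢
  obtain ⟨g1, g2⟩ := hG
  constructor <;> linarith

end Pool.Agent.H790.AF
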